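import Mathlib
import Pool.Agent.Helper531.ES.LKS6

set_option autoImplicit false

namespace Pool.Agent.Results.MP_137e81_co.ManyLeaves

/-- The Komlós–Sós conjecture (trees with `k` vertices, degree threshold `k`) for every tree one
of whose two colour classes (the vertices of colour `true`) has at most `ℓ + 2` vertices, where
`ℓ` is the number of leaves. -/
theorem result :
    ∀ (V : Type) [Fintype V] [DecidableEq V] [Nonempty V]
      (G : SimpleGraph V) [DecidableRel G.Adj] (k : ℕ)
      (W : Type) [Fintype W] [DecidableEq W] (T : SimpleGraph W) [DecidableRel T.Adj]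
      (c : W → Bool),
      T.IsTree → Fintype.card W = k →
      (∀ a b : W, T.Adj a b → c a ≠ c b) →
      (Finset.univ.filter (fun w : W => c w = true)).card ≤
        (Finset.univ.filter (fun w : W => T.degree w = 1)).card + 2 →
      Fintype.card V ≤ 2 * (Finset.univ.filter (fun v : V => k ≤ G.degree v)).card →
      ∃ f : W → V, Function.Injective f ∧ ∀ a b : W, T.Adj a b → G.Adj (f a) (f b) := by
  intro V _ _ _ G _ k W _ _ T _ c hT hW hc hX hV
  have hne : Nonempty W := hT.1.nonempty
  have hpos : 0 < Fintype.card W := Fintype.card_pos
  exact Helper531.LKS.lks_main G T hT (k - 1) k (by omega) (by omega) c hc (by omega) hV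

end Pool.Agent.Results.MP_137e81_co.ManyLeaves
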